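import Pool.Agent.H34.TAM.Stmts

/-!
Board tam (MP_286349_an), row INE (helper2): `Yes` is invariant under elementary changes of variables.
-/

set_option autoImplicit false

noncomputable section

namespace Pool.TAM

open Pool.CGR Pool.CGS

/-- **INE** -/
theorem ine_thm (hQ : QDEStmt) (hC : CDEStmt) (hN : N2MStmt) : INEStmt := by
  intro m A _ τ hτ x i p hp hyes ε hε
  obtain ⟨M, hM⟩ : ∃ M : ℝ, M = p.sum fun v r => ‖r‖ * ∑ l ∈ Finset.range v.length,
      ‖ev x (v.take l)‖ * ‖ev x (v.drop (l + 1))‖ := ⟨_, rfl⟩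
  have hM0 : 0 ≤ M := by
    rw [hM]
    unfold Finsupp.sum
    exact Finset.sum_nonneg fun v _ => mul_nonneg (norm_nonneg _)
      (Finset.sum_nonneg fun l _ => mul_nonneg (norm_nonneg _) (norm_nonneg _))
  obtain ⟨ε', hε'⟩ : ∃ ε' : ℝ, ε' = ε / (1 + M) := ⟨_, rfl⟩
  have hM1 : 0 < 1 + M := by linarith
  have hε'0 : 0 < ε' := by
    rw [hε']
    exact div_pos hε hM1
  have hεeq : ε' * (1 + M) = ε := by
    rw [hε']
    exact div_mul_cancel₀ _ hM1.ne'
  obtain ⟨H, hH⟩ := hyes ε' hε'0
  refine ⟨sbp i (-p) H, fun k P => ?_⟩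
  obtain ⟨hq1, hq2, hq3, hq4⟩ := hQ m A τ hτ x i p hp P
  obtain ⟨hc1, hc2⟩ := hC m A τ hτ x i p hp H (pe x (sbp i p P))
  have hn0 : 0 ≤ n2 τ (pe x (sbp i p P)) := ((two_thm A τ hτ).2.2.1 _).1
  have hle : ε' ≤ ε := by
    rw [← hεeq]
    nlinarith
  rw [hq1]
  by_cases hk : k = i
  · subst hk
    rw [hq2, hc1]
    exact (hH k (sbp k p P)).trans (mul_le_mul_of_nonneg_right hle hn0)
  · rw [hq3 k hk, hc2 k hk]
    obtain ⟨E, hE⟩ : ∃ E : List (Fin m) → ℂ → ℂ, E = fun v r =>
      r * ∑ l ∈ Finset.range v.length, if v[l]? = some k then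
        (dp τ x i (sbp i p (cw (v.take l) (v.drop (l + 1)) P)) -
          τ (cp x i H * (ev x (v.take l) * pe x (sbp i p P) * ev x (v.drop (l + 1))))) else 0 :=
      ⟨_, rfl⟩
    have e1 : (dp τ x k (sbp i p P) - p.sum fun v r => r * ∑ l ∈ Finset.range v.length,
          if v[l]? = some k then
            dp τ x i (sbp i p (cw (v.take l) (v.drop (l + 1)) P)) else 0) -
        (τ (cp x k H * pe x (sbp i p P)) - p.sum fun v r => r * ∑ l ∈ Finset.range v.length,
          if v[l]? = some k then
            τ (cp x i H * (ev x (v.take l) * pe x (sbp i p P) * ev x (v.drop (l + 1)))) else 0) =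
        (dp τ x k (sbp i p P) - τ (cp x k H * pe x (sbp i p P))) - p.sum E := by
      have e2 : p.sum E = (p.sum fun v r => r * ∑ l ∈ Finset.range v.length,
          if v[l]? = some k then
            dp τ x i (sbp i p (cw (v.take l) (v.drop (l + 1)) P)) else 0) -
          p.sum fun v r => r * ∑ l ∈ Finset.range v.length,
          if v[l]? = some k then
            τ (cp x i H * (ev x (v.take l) * pe x (sbp i p P) * ev x (v.drop (l + 1)))) else 0 := by
        rw [hE]
        unfold Finsupp.sum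
        rw [← Finset.sum_sub_distrib]
        refine Finset.sum_congr rfl fun v _ => ?_
        beta_reduce
        rw [← mul_sub, ← Finset.sum_sub_distrib]
        refine congrArg (p v * ·) (Finset.sum_congr rfl fun l _ => ?_)
        split_ifs
        · rfl
        · rw [sub_zero]
      rw [e2]
      ring
    rw [e1]
    have h1 : ‖p.sum E‖ ≤ ε' * M * n2 τ (pe x (sbp i p P)) := by
      have h2 : ε' * M * n2 τ (pe x (sbp i p P)) = ∑ v ∈ p.support, ‖p v‖ *
          ∑ l ∈ Finset.range v.length, ε' * (‖ev x (v.take l)‖ * ‖ev x (v.drop (l + 1))‖ *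
            n2 τ (pe x (sbp i p P))) := by
        rw [hM]
        unfold Finsupp.sum
        rw [Finset.mul_sum, Finset.sum_mul]
        refine Finset.sum_congr rfl fun v _ => ?_
        beta_reduce
        rw [Finset.mul_sum, Finset.mul_sum, Finset.mul_sum, Finset.sum_mul]
        refine Finset.sum_congr rfl fun l _ => ?_
        ring
      rw [h2]
      unfold Finsupp.sum
      refine (norm_sum_le _ _).trans (Finset.sum_le_sum fun v hv => ?_)
      rw [hE]
      show ‖p v * _‖ ≤ _
      rw [norm_mul]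
      refine mul_le_mul_of_nonneg_left ?_ (norm_nonneg _)
      refine (norm_sum_le _ _).trans (Finset.sum_le_sum fun l hl => ?_)
      have hcd : ∀ j ∈ v, j ≠ i := fun j hj => by
        have := hp v hv j hj
        simpa using this
      have hc : ∀ j ∈ v.take l, j ≠ i := fun j hj => hcd j (List.mem_of_mem_take hj)
      have hd : ∀ j ∈ v.drop (l + 1), j ≠ i := fun j hj => hcd j (List.mem_of_mem_drop hj)
      split_ifs with hif
      · have h3 := hq4 (v.take l) (v.drop (l + 1)) hc hd
        rw [← h3]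
        refine (hH i _).trans (mul_le_mul_of_nonneg_left ?_ hε'0.le)
        rw [h3]
        have h4 := (hN A τ hτ (ev x (v.take l) * pe x (sbp i p P)) (ev x (v.drop (l + 1)))).2
        have h5 := (hN A τ hτ (ev x (v.take l)) (pe x (sbp i p P))).1
        calc n2 τ (ev x (v.take l) * pe x (sbp i p P) * ev x (v.drop (l + 1))) ≤
              n2 τ (ev x (v.take l) * pe x (sbp i p P)) * ‖ev x (v.drop (l + 1))‖ := h4
          _ ≤ (‖ev x (v.take l)‖ * n2 τ (pe x (sbp i p P))) * ‖ev x (v.drop (l + 1))‖ :=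
            mul_le_mul_of_nonneg_right h5 (norm_nonneg _)
          _ = _ := by ring
      · rw [norm_zero]
        positivity
    calc ‖(dp τ x k (sbp i p P) - τ (cp x k H * pe x (sbp i p P))) - p.sum E‖ ≤
          ‖dp τ x k (sbp i p P) - τ (cp x k H * pe x (sbp i p P))‖ + ‖p.sum E‖ := norm_sub_le _ _
      _ ≤ ε' * n2 τ (pe x (sbp i p P)) + ε' * M * n2 τ (pe x (sbp i p P)) :=
        add_le_add (hH k _) h1
      _ = ε * n2 τ (pe x (sbp i p P)) := by rw [← hεeq]; ring

end Pool.TAM
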