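import Pool.Agent.H34.TAM.Stmts

/-!
Board tam (MP_286349_an), row VAN (helper2): alternating centred products times an element of one
algebra.
-/

set_option autoImplicit false

noncomputable section

namespace Pool.TAM

open Pool.CGR Pool.CGS

namespace VANH

variable {A O : Type} [Ring A] [Algebra ℂ A] {τ : A →ₗ[ℂ] ℂ} {B : O → Subalgebra ℂ A}

theorem center (h1 : τ 1 = 1) {o : O} {u : A} (hu : u ∈ B o) :
    u - τ u • (1 : A) ∈ B o ∧ τ (u - τ u • (1 : A)) = 0 := by
  refine ⟨sub_mem hu (Subalgebra.smul_mem _ (one_mem _) _), ?_⟩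
  rw [map_sub, map_smul, h1, smul_eq_mul, mul_one, sub_self]

theorem right (h1 : τ 1 = 1) (hF : FreeAlg τ B) (l : List (O × A)) (hl : l ≠ [])
    (hc : l.IsChain (fun a b => a.1 ≠ b.1)) (hm : ∀ a ∈ l, a.2 ∈ B a.1 ∧ τ a.2 = 0) (o : O)
    (u : A) (hu : u ∈ B o) (ho : ∀ a ∈ l.getLast?, a.1 ≠ o) :
    τ ((l.map Prod.snd).prod * u) = 0 := by
  have h0 := hF l hl hc hm
  have h2 := hF (l ++ [(o, u - τ u • (1 : A))]) (by simp) (by
    rw [List.isChain_append]
    refine ⟨hc, List.isChain_singleton _, ?_⟩
    intro a ha b hb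
    simp only [List.head?_cons, Option.mem_def, Option.some.injEq] at hb
    subst hb
    exact ho a ha) (by
    intro a ha
    rcases List.mem_append.1 ha with ha | ha
    · exact hm a ha
    · rw [List.mem_singleton.1 ha]
      exact center h1 hu)
  rw [List.map_append, List.prod_append, List.map_singleton, List.prod_singleton, mul_sub,
    mul_smul_comm, mul_one, map_sub, map_smul, h0, smul_zero, sub_zero] at h2
  exact h2

theorem left (h1 : τ 1 = 1) (hF : FreeAlg τ B) (l : List (O × A)) (hl : l ≠ [])
    (hc : l.IsChain (fun a b => a.1 ≠ b.1)) (hm : ∀ a ∈ l, a.2 ∈ B a.1 ∧ τ a.2 = 0) (o : O)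
    (u : A) (hu : u ∈ B o) (ho : ∀ a ∈ l.head?, a.1 ≠ o) :
    τ (u * (l.map Prod.snd).prod) = 0 := by
  have h0 := hF l hl hc hm
  have h2 := hF ((o, u - τ u • (1 : A)) :: l) (List.cons_ne_nil _ _) (by
    rw [List.isChain_cons]
    refine ⟨?_, hc⟩
    intro b hb
    exact Ne.symm (ho b hb)) (by
    intro a ha
    rcases List.mem_cons.1 ha with rfl | ha
    · exact center h1 hu
    · exact hm a ha)
  rw [List.map_cons, List.prod_cons, sub_mul, smul_mul_assoc, one_mul, map_sub, map_smul, h0,
    smul_zero, sub_zero] at h2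
  exact h2

end VANH

open VANH in
/-- **VAN** -/
theorem van_thm : VANStmt := by
  intro A O _ _ τ B h1 hF l hl hc hm o u hu
  refine ⟨fun ho => right h1 hF l hl hc hm o u hu ho,
    fun ho => left h1 hF l hl hc hm o u hu ho, fun hh => ?_⟩
  by_cases ho : ∀ a ∈ l.getLast?, a.1 ≠ o
  · exact right h1 hF l hl hc hm o u hu ho
  · rcases List.eq_nil_or_concat l with h | ⟨l', a, rfl⟩
    · exact absurd h hl
    · rw [List.concat_eq_append] at *
      have hao : a.1 = o := by
        by_contra hne
        apply ho
        intro b hb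
        have hab : a = b := by simpa using hb
        exact hab ▸ hne
      have hl' : l' ≠ [] := by
        rintro rfl
        rcases hh with hh | hh
        · simp at hh
        · exact hh a (by simp) hao
      have h2 := List.isChain_append.1 hc
      rw [List.map_append, List.prod_append, List.map_singleton, List.prod_singleton, mul_assoc]
      refine right h1 hF l' hl' h2.1 (fun b hb => hm b (List.mem_append_left _ hb)) o (a.2 * u)
        ((B o).mul_mem ?_ hu) ?_
      · have := (hm a (by simp)).1
        rwa [hao] at this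
      · intro b hb
        rw [← hao]
        exact h2.2.2 b hb a (by simp)

end Pool.TAM
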